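import Mathlib

/-!
# The kernel of a pairing on `M ⊗ ℚ/ℤ`
-/

set_option autoImplicit false

open scoped TensorProduct

namespace Pool.Agent.U273.UR

/-- The group `ℚ/ℤ`. -/
abbrev QZ : Type := AddCircle (1 : ℚ)

/-- `ℚ/ℤ` is divisible. -/
theorem qz_div (t : QZ) (n : ℕ) (hn : n ≠ 0) : ∃ s : QZ, n • s = t := by
  induction t using QuotientAddGroup.induction_on with
  | H r =>
    refine ⟨((r / n : ℚ) : QZ), ?_⟩
    have hn' : (n : ℚ) ≠ 0 := by exact_mod_cast hn
    rw [← AddCircle.coe_nsmul]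
    congr 1
    rw [nsmul_eq_mul]
    field_simp

/-- The torsion of `ℚ/ℤ` killed by `n ≠ 0` is finite. -/
theorem qz_finite (n : ℕ) (hn : n ≠ 0) : {t : QZ | n • t = 0}.Finite := by
  have hn' : (n : ℚ) ≠ 0 := by exact_mod_cast hn
  refine Set.Finite.subset (Set.finite_range fun i : Fin n => ((((i : ℕ) : ℚ) / n : ℚ) : QZ)) ?_
  intro t ht
  induction t using QuotientAddGroup.induction_on with
  | H r =>
    have h1 : (((n • r : ℚ)) : QZ) = 0 := by
      rw [AddCircle.coe_nsmul]
      exact ht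
    rw [AddCircle.coe_eq_zero_iff] at h1
    obtain ⟨m, hm⟩ := h1
    have hm' : (m : ℚ) = n * r := by
      rw [zsmul_eq_mul, mul_one, nsmul_eq_mul] at hm
      exact hm
    have hr : r = m / n := by
      rw [hm']
      field_simp
    have hpos : 0 < (n : ℤ) := by exact_mod_cast Nat.pos_of_ne_zero hn
    have h2 : 0 ≤ m % n := Int.emod_nonneg m hpos.ne'
    have h3 : m % n < n := Int.emod_lt_of_pos m hpos
    refine ⟨⟨(m % n).toNat, by omega⟩, ?_⟩
    show ((((m % n).toNat : ℕ) : ℚ) / n : ℚ) = ((r : ℚ) : QZ)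
    have h4 : (((m % n).toNat : ℕ) : ℚ) = ((m % n : ℤ) : ℚ) := by
      have : (((m % n).toNat : ℕ) : ℤ) = m % n := Int.toNat_of_nonneg h2
      exact_mod_cast congrArg (fun z : ℤ => (z : ℚ)) this
    rw [h4]
    have h5 : (m : ℚ) = (m % n : ℤ) + (n : ℚ) * (m / n : ℤ) := by
      have := Int.emod_add_mul_ediv m n
      exact_mod_cast (congrArg (fun z : ℤ => (z : ℚ)) this).symm
    have h6 : r = ((m % n : ℤ) : ℚ) / n + (m / n : ℤ) • (1 : ℚ) := by
      rw [hr, zsmul_eq_mul, mul_one]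
      nth_rewrite 1 [h5]
      field_simp
    rw [h6, AddCircle.coe_add, AddCircle.coe_zsmul, AddCircle.coe_period, smul_zero, add_zero]

variable {M N : Type*} [AddCommGroup M] [AddCommGroup N]

/-- If the `e i` span `M` up to torsion and division, then all elements of `M ⊗ ℚ/ℤ` are sums of
`e i ⊗ t`. -/
theorem span_qz {ι : Type*} [Fintype ι] (e : ι → M)
    (he : ∀ z : M, ∃ n : ℕ, n ≠ 0 ∧ ∃ c : ι → ℤ, n • z = ∑ i, c i • e i) (x : M ⊗[ℤ] QZ) :
    ∃ t : ι → QZ, x = ∑ i, e i ⊗ₜ[ℤ] t i := by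
  induction x using TensorProduct.induction_on with
  | zero => exact ⟨0, by simp⟩
  | add x y hx hy =>
    obtain ⟨s, hs⟩ := hx
    obtain ⟨t, ht⟩ := hy
    refine ⟨s + t, ?_⟩
    rw [hs, ht, ← Finset.sum_add_distrib]
    exact Finset.sum_congr rfl fun i _ => by rw [Pi.add_apply, TensorProduct.tmul_add]
  | tmul z t =>
    obtain ⟨n, hn, c, hc⟩ := he z
    obtain ⟨s, hs⟩ := qz_div t n hn
    refine ⟨fun i => c i • s, ?_⟩
    have h1 : z ⊗ₜ[ℤ] t = (n • z) ⊗ₜ[ℤ] s := by
      rw [← hs, ← natCast_zsmul, ← natCast_zsmul, TensorProduct.tmul_smul,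
        TensorProduct.smul_tmul']
    rw [h1, hc, TensorProduct.sum_tmul]
    refine Finset.sum_congr rfl fun i _ => ?_
    rw [TensorProduct.tmul_smul, TensorProduct.smul_tmul']

/-- The kernel on `M ⊗ ℚ/ℤ` of a pairing which is nondegenerate on `M ⊗ ℚ`, of finite rank. -/
theorem kernel_finite {ι κ : Type*} [Fintype ι] [Fintype κ] [DecidableEq ι] (e : ι → M)
    (he : ∀ z : M, ∃ n : ℕ, n ≠ 0 ∧ ∃ c : ι → ℤ, n • z = ∑ i, c i • e i) (G : ι → κ → ℤ)
    (hG : ∀ c : ι → ℚ, (∀ j, ∑ i, c i * G i j = 0) → c = 0) (φ : κ → M ⊗[ℤ] QZ →+ QZ)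
    (hφ : ∀ i j t, φ j (e i ⊗ₜ[ℤ] t) = G i j • t) :
    {x : M ⊗[ℤ] QZ | ∀ j, φ j x = 0}.Finite := by
  classical
  -- a left inverse of the matrix
  let f : (ι → ℚ) →ₗ[ℚ] (κ → ℚ) :=
    { toFun := fun c j => ∑ i, c i * G i j
      map_add' := fun a b => by
        ext j
        simp only [Pi.add_apply, add_mul, Finset.sum_add_distrib]
      map_smul' := fun r a => by
        ext j
        simp only [Pi.smul_apply, smul_eq_mul, RingHom.id_apply, Finset.mul_sum, mul_assoc] }
  have hker : LinearMap.ker f = ⊥ := by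
    rw [LinearMap.ker_eq_bot']
    intro c hc
    exact hG c fun j => congrFun hc j
  obtain ⟨g, hg⟩ := LinearMap.exists_leftInverse_of_injective f hker
  -- the matrix of `g`: `g (single j 1) i`
  obtain ⟨D, hD, hDg⟩ : ∃ D : ℕ, D ≠ 0 ∧ ∀ j i, ∃ m : ℤ, (D : ℚ) * g (Pi.single j 1) i = m := by
    refine ⟨∏ j, ∏ i, (g (Pi.single j 1) i).den, ?_, ?_⟩
    · exact Finset.prod_ne_zero_iff.2 fun j _ => Finset.prod_ne_zero_iff.2 fun i _ =>
        (g (Pi.single j 1) i).den_ne_zero
    · intro j i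
      have h1 : (g (Pi.single j 1) i).den ∣ ∏ j, ∏ i, (g (Pi.single j 1) i).den :=
        (Finset.dvd_prod_of_mem (fun i => (g (Pi.single j 1) i).den) (Finset.mem_univ i)).trans
          (Finset.dvd_prod_of_mem (fun j => ∏ i, (g (Pi.single j 1) i).den) (Finset.mem_univ j))
      obtain ⟨a, ha⟩ := h1
      refine ⟨a * (g (Pi.single j 1) i).num, ?_⟩
      rw [ha]
      push_cast
      have h2 := Rat.den_mul_eq_num (g (Pi.single j 1) i)
      linear_combination (a : ℚ) * h2
  choose m hm using hDg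
  -- `∑_j G i j m j i' = D δ_{i i'}`
  have hmat : ∀ i i', ∑ j, G i j * m j i' = if i = i' then (D : ℤ) else 0 := by
    intro i i'
    have h1 : g (f (Pi.single i 1)) = Pi.single i 1 := by
      have := LinearMap.congr_fun hg (Pi.single i 1)
      simpa using this
    have h2 : f (Pi.single i 1) = fun j => (G i j : ℚ) := by
      ext j
      show ∑ i', (Pi.single i 1 : ι → ℚ) i' * G i' j = G i j
      rw [Finset.sum_eq_single i]
      · rw [Pi.single_eq_same, one_mul]
      · intro b _ hb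
        rw [Pi.single_eq_of_ne hb, zero_mul]
      · intro h
        exact absurd (Finset.mem_univ i) h
    have h3 : (fun j => (G i j : ℚ)) = ∑ j, (G i j : ℚ) • (Pi.single j 1 : κ → ℚ) := by
      ext j
      rw [Finset.sum_apply, Finset.sum_eq_single j]
      · simp
      · intro b _ hb
        rw [Pi.smul_apply, Pi.single_eq_of_ne hb.symm, smul_zero]
      · intro h
        exact absurd (Finset.mem_univ j) h
    rw [h2, h3, map_sum] at h1
    have h4 := congrFun h1 i'
    rw [Finset.sum_apply] at h4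
    have h5 : ((∑ j, G i j * m j i' : ℤ) : ℚ) = ((if i = i' then (D : ℤ) else 0 : ℤ) : ℚ) := by
      push_cast
      have h6 : ∀ j, (G i j : ℚ) * (m j i' : ℚ) = D * ((g ((G i j : ℚ) • Pi.single j 1)) i') := by
        intro j
        rw [← hm j i', map_smul, Pi.smul_apply, smul_eq_mul]
        ring
      rw [Finset.sum_congr rfl fun j _ => h6 j, ← Finset.mul_sum, h4]
      by_cases h : i = i'
      · rw [h, Pi.single_eq_same, if_pos rfl, mul_one]
      · rw [Pi.single_eq_of_ne (Ne.symm h), if_neg h, mul_zero]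
    exact_mod_cast h5
  refine Set.Finite.subset ((Set.Finite.pi' fun _ : ι => qz_finite D hD).image
    fun t : ι → QZ => ∑ i, e i ⊗ₜ[ℤ] t i) ?_
  intro x hx
  obtain ⟨t, ht⟩ := span_qz e he x
  refine ⟨t, ?_, ht.symm⟩
  intro i'
  have h1 : ∀ j, ∑ i, G i j • t i = 0 := by
    intro j
    have := hx j
    rw [ht, map_sum] at this
    rw [← this]
    exact Finset.sum_congr rfl fun i _ => (hφ i j (t i)).symm
  show D • t i' = 0
  have h2 : ∑ j, m j i' • ∑ i, G i j • t i = D • t i' := by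
    simp only [Finset.smul_sum, smul_smul]
    rw [Finset.sum_comm]
    have h3 : ∀ i, ∑ j, (m j i' * G i j) • t i = (if i = i' then (D : ℤ) else 0) • t i := by
      intro i
      rw [← Finset.sum_smul, ← hmat i i']
      congr 1
      exact Finset.sum_congr rfl fun j _ => mul_comm _ _
    rw [Finset.sum_congr rfl fun i _ => h3 i, Finset.sum_eq_single i']
    · rw [if_pos rfl, natCast_zsmul]
    · intro b _ hb
      rw [if_neg hb, zero_smul]
    · intro h
      exact absurd (Finset.mem_univ i') h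
  rw [← h2]
  exact Finset.sum_eq_zero fun j _ => by rw [h1 j, smul_zero]

end Pool.Agent.U273.UR
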