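import Mathlib
import Pool.Agent.Y154.BQ.Defs
import Pool.Agent.U273.UR.Alg

/-!
# Unramified cohomology of degree three: definitions
-/

set_option autoImplicit false

open CategoryTheory AlgebraicGeometry
open scoped TensorProduct

namespace Pool.Agent.U273.UR

open Pool.Agent.H914 Pool.Agent.H914.VarClass Pool.Agent.H914.VarClass.Obj
  Pool.Agent.W492.BB Pool.Agent.W484.CK Pool.Agent.Y154.BQ

/-- The groups of a smooth projective variety `X` of dimension `d` over a finite field which are related to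
its unramified cohomology of degree three: the Chow groups `Chow = CH^2(X)` and `Dual = CH^(d-2)(X)` (with
integral coefficients), the étale cohomology groups `H3 = H^3(X, ℚ/ℤ(2))` and `H4 = H^4(X, ℚ/ℤ(2))`, and
the unramified cohomology group `Hnr = H^3_nr(X, ℚ/ℤ(2))`. -/
structure Groups where
  /-- `CH^2(X)` -/
  Chow : Type
  /-- `CH^(d-2)(X)` -/
  Dual : Type
  /-- `H^3(X, ℚ/ℤ(2))` -/
  H3 : Type
  /-- `H^3_nr(X, ℚ/ℤ(2))` -/
  Hnr : Type
  /-- `H^4(X, ℚ/ℤ(2))` -/
  H4 : Type
  [groupChow : AddCommGroup Chow]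
  [groupDual : AddCommGroup Dual]
  [groupH3 : AddCommGroup H3]
  [groupHnr : AddCommGroup Hnr]
  [groupH4 : AddCommGroup H4]

attribute [instance] Groups.groupChow Groups.groupDual Groups.groupH3 Groups.groupHnr Groups.groupH4

/-- The maps between these groups: the intersection number `deg` of an element of `CH^2(X)` and an
element of `CH^(d-2)(X)`, the maps `H^3(X, ℚ/ℤ(2)) → H^3_nr(X, ℚ/ℤ(2)) → CH^2(X) ⊗ ℚ/ℤ → H^4(X, ℚ/ℤ(2))` of
Bloch and Ogus (the last one is the cycle class), and the cup product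
`H^4(X, ℚ/ℤ(2)) → H^(2d)(X, ℚ/ℤ(d)) → ℚ/ℤ` with the class of an element of `CH^(d-2)(X)`, followed by the
trace map. -/
structure Maps (G : Groups) where
  /-- the intersection number -/
  deg : G.Chow → G.Dual → ℤ
  /-- the restriction to the generic point -/
  toNr : G.H3 →+ G.Hnr
  /-- the map of the spectral sequence of Bloch and Ogus -/
  toChow : G.Hnr →+ G.Chow ⊗[ℤ] QZ
  /-- the cycle class -/
  cycle : G.Chow ⊗[ℤ] QZ →+ G.H4
  /-- the cup product with a class, followed by the trace map -/
  cup : G.Dual → G.H4 →+ QZ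

/-- The sequence `A → B → C` is exact at `B`: the kernel of the second map is in the image of the
first one. -/
def IsExactAt {A B C : Type} [AddCommGroup A] [AddCommGroup B] [AddCommGroup C] (f : A →+ B)
    (g : B →+ C) : Prop :=
  ∀ x, g x = 0 → ∃ y, f y = x

/-- The composition of `A → B → C` is zero. -/
def IsComplex {A B C : Type} [AddCommGroup A] [AddCommGroup B] [AddCommGroup C] (f : A →+ B)
    (g : B →+ C) : Prop :=
  ∀ x, g (f x) = 0

/-- The cup product of the cycle class of `z ⊗ t` with the class of `w` has trace `deg(z · w) t`. -/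
def IsCompatible {M N H : Type} [AddCommGroup M] [AddCommGroup H] (deg : M → N → ℤ)
    (cycle : M ⊗[ℤ] QZ →+ H) (cup : N → H →+ QZ) : Prop :=
  ∀ z w t, cup w (cycle (z ⊗ₜ[ℤ] t)) = deg z w • t

/-- The known properties of these maps: the group `H^3(X, ℚ/ℤ(2))` is finite (Colliot-Thélène, Sansuc,
Soulé; Gabber; Gros, Suwa), the sequence of Bloch and Ogus is exact at `H^3_nr(X, ℚ/ℤ(2))` and a complex
at `CH^2(X) ⊗ ℚ/ℤ`, and the cycle class is compatible with products and the degree. -/
structure IsBlochOgus {G : Groups} (m : Maps G) : Prop where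
  finite : Finite G.H3
  exact : IsExactAt m.toNr m.toChow
  comp : IsComplex m.toChow m.cycle
  cup_cycle : IsCompatible m.deg m.cycle m.cup

/-- With the map `cl : M → S ⊆ V` the rational vector space `S` is `M ⊗ ℚ`. -/
structure IsIntegralForm {M V : Type} [AddCommGroup M] [AddCommGroup V] [Module ℚ V]
    (S : Submodule ℚ V) (cl : M →+ V) : Prop where
  mem : ∀ z, cl z ∈ S
  torsion : ∀ z, cl z = 0 → ∃ n : ℕ, n ≠ 0 ∧ n • z = 0
  span : ∀ v ∈ S, ∃ n : ℕ, n ≠ 0 ∧ ∃ z, cl z = (n : ℚ) • v

/-- The unramified cohomology group `Hnr = H^3_nr(X, ℚ/ℤ(2))` of a smooth projective variety `X` over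
a finite field, with the groups and maps through which it is studied, and the maps `cl`, `cl'` from
`CH^2(X)` and `CH^(d-2)(X)` to the Chow groups with rational coefficients of the theory `C`.

Only known properties of them are listed. -/
structure UnramifiedCohomology {k : Type} [Field k] {𝒱 : VarClass k}
    (C : TheoryData.{0, 0, 0} 𝒱 ℚ) (X : 𝒱.Obj) extends Groups where
  /-- the maps of Bloch and Ogus -/
  maps : Maps toGroups
  isBlochOgus : IsBlochOgus maps
  /-- the map to the rational Chow group -/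
  cl : Chow →+ C.A X
  /-- the map to the rational Chow group -/
  cl' : Dual →+ C.A X
  /-- `CH^2(X)_ℚ` is `CH^2(X) ⊗ ℚ` -/
  isForm : IsIntegralForm (C.gr X 2) cl
  /-- `CH^(d-2)(X)_ℚ` is `CH^(d-2)(X) ⊗ ℚ` -/
  isForm' : IsIntegralForm (C.gr X (X.dim - 2)) cl'
  /-- `deg` is the intersection number -/
  hasDegree : ∀ z w, HasDegree C (C.mul (cl z) (cl' w)) (maps.deg z w)

/-- The group `H^3_nr(X, ℚ/ℤ(2))` is finite. -/
def UnramifiedFinite {k : Type} [Field k] {𝒱 : VarClass k} (C : TheoryData.{0, 0, 0} 𝒱 ℚ)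
    (X : 𝒱.Obj) : Prop :=
  ∀ D : UnramifiedCohomology C X, Finite D.Hnr

end Pool.Agent.U273.UR
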