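import Mathlib
import Pool.Agent.Y154.BQ.Pair
import Pool.Agent.U273.UR.Defs

/-!
# Unramified cohomology of degree three: the criterion
-/

set_option autoImplicit false
set_option linter.unusedSectionVars false

open CategoryTheory AlgebraicGeometry
open scoped TensorProduct

namespace Pool.Agent.U273.UR

open Pool.Agent.H914 Pool.Agent.H914.VarClass Pool.Agent.H914.VarClass.Obj
  Pool.Agent.W492.BB Pool.Agent.Y154.BQ Pool.Agent.W484.CH

/-- A homomorphism with finite kernel and image in a finite set. -/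
theorem finite_of_hom {A B : Type*} [AddCommGroup A] [AddCommGroup B] (f : A →+ B)
    (hker : {x | f x = 0}.Finite) (S : Set B) (hS : S.Finite) (hf : ∀ x, f x ∈ S) : Finite A := by
  have h1 : (f ⁻¹' S).Finite := by
    refine hS.preimage' fun b _ => ?_
    rcases (f ⁻¹' {b}).eq_empty_or_nonempty with h | ⟨x₀, hx₀⟩
    · rw [h]
      exact Set.finite_empty
    · refine (hker.image fun x => x + x₀).subset ?_
      intro x hx
      refine ⟨x - x₀, ?_, sub_add_cancel x x₀⟩
      show f (x - x₀) = 0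
      rw [map_sub]
      have h2 : f x = b := hx
      have h3 : f x₀ = b := hx₀
      rw [h2, h3, sub_self]
  have h2 : f ⁻¹' S = Set.univ := Set.eq_univ_of_forall hf
  rw [h2] at h1
  exact Set.finite_univ_iff.1 h1

variable {k : Type} [Field k] {𝒱 : VarClass k} {C : TheoryData.{0, 0, 0} 𝒱 ℚ} {K : Type}
  [Field K] [CharZero K] {H : WeilTheoryData.{0, 0, 0} C K} [hC : IsChow C] [hH : IsWeil H]

/-- **If the intersection pairing `CH^2(X)_ℝ × CH^(d-2)(X)_ℝ → ℝ` is perfect, then
`H^3_nr(X, ℚ/ℤ(2))` is finite.** -/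
theorem unramifiedFinite (hS : IsStandard H) {X : 𝒱.Obj} (hX : PerfectIn C X 2) :
    UnramifiedFinite C X := by
  classical
  intro D
  obtain ⟨β, hβ⟩ := exists_form hS X 2
  have hperf := (perfectIn_iff hS X 2 β hβ).1 hX
  have hfV := hperf.finV
  have hfW := hperf.finW
  let v := Module.finBasis ℚ (C.gr X 2)
  let w := Module.finBasis ℚ (C.gr X (X.dim - 2))
  -- the maps to the two graded pieces
  let cl : D.Chow →+ C.gr X 2 := D.cl.codRestrict (C.gr X 2) D.isForm.mem
  let cl' : D.Dual →+ C.gr X (X.dim - 2) := D.cl'.codRestrict (C.gr X (X.dim - 2)) D.isForm'.mem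
  have hcl : ∀ z, (cl z : C.A X) = D.cl z := fun z => rfl
  have hcl' : ∀ z, (cl' z : C.A X) = D.cl' z := fun z => rfl
  have cl_torsion : ∀ z, cl z = 0 → ∃ n : ℕ, n ≠ 0 ∧ n • z = 0 := fun z hz =>
    D.isForm.torsion z (by rw [← hcl z, hz]; rfl)
  have cl_span : ∀ v : C.gr X 2, ∃ n : ℕ, n ≠ 0 ∧ ∃ z, cl z = (n : ℚ) • v := by
    intro v
    obtain ⟨n, hn, z, hz⟩ := D.isForm.span v v.2
    exact ⟨n, hn, z, Subtype.ext hz⟩
  have cl_span' : ∀ v : C.gr X (X.dim - 2), ∃ n : ℕ, n ≠ 0 ∧ ∃ z, cl' z = (n : ℚ) • v := by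
    intro v
    obtain ⟨n, hn, z, hz⟩ := D.isForm'.span v v.2
    exact ⟨n, hn, z, Subtype.ext hz⟩
  choose n hn e he using fun i => cl_span (v i)
  choose n' hn' u hu using fun j => cl_span' (w j)
  have hnQ : ∀ i, (n i : ℚ) ≠ 0 := fun i => by exact_mod_cast hn i
  have hnQ' : ∀ j, (n' j : ℚ) ≠ 0 := fun j => by exact_mod_cast hn' j
  have hG : ∀ i j, ((D.maps.deg (e i) (u j) : ℤ) : ℚ) = β (cl (e i)) (cl' (u j)) := fun i j =>
    hasDegree_unique hS (D.hasDegree (e i) (u j)) (hβ (cl (e i)) (cl' (u j)))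
  -- the kernel on `CH^2(X) ⊗ ℚ/ℤ`
  have hfin : {x : D.Chow ⊗[ℤ] QZ | ∀ j, ((D.maps.cup (u j)).comp D.maps.cycle) x = 0}.Finite := by
    refine kernel_finite e ?_ (fun i j => D.maps.deg (e i) (u j)) ?_
      (fun j => (D.maps.cup (u j)).comp D.maps.cycle) ?_
    · intro z
      -- the coefficients of `z`
      let a : Fin _ → ℚ := fun i => v.repr (cl z) i / n i
      have ha : cl z = ∑ i, a i • cl (e i) := by
        conv_lhs => rw [← v.sum_repr (cl z)]
        refine Finset.sum_congr rfl fun i _ => ?_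
        rw [he i, smul_smul]
        congr 1
        show _ = v.repr (cl z) i / n i * n i
        field_simp [hnQ i]
      obtain ⟨d, hd, c, hc⟩ : ∃ d : ℕ, d ≠ 0 ∧ ∃ c : Fin _ → ℤ, ∀ i, (d : ℚ) * a i = c i := by
        refine ⟨∏ i, (a i).den, Finset.prod_ne_zero_iff.2 fun i _ => (a i).den_ne_zero, ?_⟩
        have h1 : ∀ i, ∃ c : ℤ, ((∏ i, (a i).den : ℕ) : ℚ) * a i = c := by
          intro i
          obtain ⟨b, hb⟩ := Finset.dvd_prod_of_mem (fun i => (a i).den) (Finset.mem_univ i)
          refine ⟨b * (a i).num, ?_⟩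
          rw [hb]
          push_cast
          have h2 := Rat.den_mul_eq_num (a i)
          linear_combination (b : ℚ) * h2
        choose c hc using h1
        exact ⟨c, hc⟩
      have h1 : cl (d • z - ∑ i, c i • e i) = 0 := by
        rw [map_sub, map_nsmul, map_sum, sub_eq_zero]
        have h2 : ∀ i, cl (c i • e i) = ((d : ℚ) * a i) • cl (e i) := by
          intro i
          rw [map_zsmul, hc i]
          exact (Int.cast_smul_eq_zsmul ℚ (c i) (cl (e i))).symm
        rw [Finset.sum_congr rfl fun i _ => h2 i]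
        have h3 : ∀ i, ((d : ℚ) * a i) • cl (e i) = (d : ℚ) • (a i • cl (e i)) :=
          fun i => mul_smul _ _ _
        rw [Finset.sum_congr rfl fun i _ => h3 i, ← Finset.smul_sum, ← ha]
        exact (Nat.cast_smul_eq_nsmul ℚ d (cl z)).symm
      obtain ⟨m, hm, hm0⟩ := cl_torsion _ h1
      refine ⟨m * d, mul_ne_zero hm hd, fun i => m * c i, ?_⟩
      rw [smul_sub, sub_eq_zero] at hm0
      rw [mul_smul, hm0, Finset.smul_sum]
      refine Finset.sum_congr rfl fun i _ => ?_
      rw [mul_smul, natCast_zsmul]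
    · intro c hc
      have h1 : ∑ i, (c i * n i) • v i = 0 := by
        apply hperf.left
        intro y
        have h2 : ∀ j, β (∑ i, (c i * n i) • v i) (w j) = 0 := by
          intro j
          have h3 : (n' j : ℚ) * β (∑ i, (c i * n i) • v i) (w j) =
              ∑ i, c i * D.maps.deg (e i) (u j) := by
            rw [map_sum, LinearMap.sum_apply, Finset.mul_sum]
            refine Finset.sum_congr rfl fun i _ => ?_
            rw [hG i j, he i, hu j]
            simp only [map_smul, LinearMap.smul_apply, smul_eq_mul]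
            ring
          rw [hc j] at h3
          exact (mul_eq_zero.1 h3).resolve_left (hnQ' j)
        rw [← w.sum_repr y, map_sum]
        refine Finset.sum_eq_zero fun j _ => ?_
        rw [map_smul, h2 j, smul_zero]
      have h4 := (Fintype.linearIndependent_iff.1 v.linearIndependent) (fun i => c i * n i) h1
      ext i
      exact (mul_eq_zero.1 (h4 i)).resolve_right (hnQ i)
    · intro i j t
      exact D.isBlochOgus.cup_cycle (e i) (u j) t
  have hfin3 := D.isBlochOgus.finite
  refine finite_of_hom D.maps.toChow ?_ _ hfin ?_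
  · refine (Set.finite_range D.maps.toNr).subset ?_
    intro x hx
    exact D.isBlochOgus.exact x hx
  · intro x j
    show D.maps.cup (u j) (D.maps.cycle (D.maps.toChow x)) = 0
    rw [D.isBlochOgus.comp x, map_zero]

/-- In negative degrees all groups are zero. -/
theorem perfectIn_neg (hS : IsStandard H) (X : 𝒱.Obj) {l : ℤ} (hl : l < 0) : PerfectIn C X l := by
  obtain ⟨β, hβ⟩ := exists_form hS X l
  refine (perfectIn_iff hS X l β hβ).2 ?_
  have hV : ∀ z : C.gr X l, z = 0 := by
    intro z
    have h1 : C.gr X l = ⊥ := hC.isTheory.isGradedRing.gr_neg X l hl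
    have h2 : (z : C.A X) ∈ C.gr X l := z.2
    have h3 : (z : C.A X) = 0 := by
      have h4 : (z : C.A X) ∈ (⊥ : Submodule ℚ (C.A X)) := h1 ▸ h2
      exact (Submodule.mem_bot ℚ).1 h4
    exact Subtype.ext h3
  have hW : ∀ z : C.gr X (X.dim - l), z = 0 := by
    intro z
    have h1 : C.gr X (X.dim - l) = ⊥ := hS.chow_top X (X.dim - l) (by omega)
    have h2 : (z : C.A X) ∈ C.gr X (X.dim - l) := z.2
    have h3 : (z : C.A X) = 0 := by
      have h4 : (z : C.A X) ∈ (⊥ : Submodule ℚ (C.A X)) := h1 ▸ h2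
      exact (Submodule.mem_bot ℚ).1 h4
    exact Subtype.ext h3
  have : Subsingleton (C.gr X l) := ⟨fun a b => (hV a).trans (hV b).symm⟩
  have : Subsingleton (C.gr X (X.dim - l)) := ⟨fun a b => (hW a).trans (hW b).symm⟩
  exact ⟨inferInstance, inferInstance, fun v _ => hV v, fun w _ => hW w⟩

/-- The criterion for the pairings in degrees between zero and two of another variety. -/
theorem perfectIn_le_two (hS : IsStandard H) {X : 𝒱.Obj}
    (hX : ∀ l : ℤ, 0 ≤ l → l ≤ 2 → PerfectIn C X l) (l : ℤ) (hl : l ≤ 2) : PerfectIn C X l := by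
  rcases lt_or_ge l 0 with h | h
  · exact perfectIn_neg hS X h
  · exact hX l h hl

end Pool.Agent.U273.UR
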