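import Mathlib
import Pool.Agent.Y1.CT.PairDefs
import Pool.Agent.U273.UR.Defs

/-!
# Unramified cohomology of degree three of the products `A × Z`: the property of the Weil numbers
-/

set_option autoImplicit false

open CategoryTheory AlgebraicGeometry

namespace Pool.Agent.U273.UR

open Polynomial Pool.Agent.H914 Pool.Agent.H914.VarClass Pool.Agent.H914.VarClass.Obj
  Pool.Agent.W492.BB Pool.Agent.W484.CK Pool.Agent.Y1.CT

/-- `UnramifiedTimes K q f`: the following holds for the Chow groups `C` with rational coefficients of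
all classes `𝒱` of varieties over fields `k` (finite, in the intended use), every Weil cohomology
theory `H` with coefficients in an algebraically closed field `F` of characteristic zero and all
`A`, `Z` as in `IsCase`, where the Frobenius endomorphism `πA × πZ` of `A × Z` acts on its Chow
groups in the usual way: if the pairings `CH^m(Z)_ℝ × CH^(dim Z - m)(Z)_ℝ → ℝ` are perfect for
`m = 0, 1, 2`, then the group `H^3_nr(A × Z, ℚ/ℤ(2))` is finite. -/
def UnramifiedTimes {I : Type} (K : I → Type) [∀ i, Field (K i)] (q : ℕ) (f : I → ℤ[X]) :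
    Prop :=
  ∀ (k : Type) [Field k] (𝒱 : VarClass k) (C : TheoryData.{0, 0, 0} 𝒱 ℚ) [IsChow C]
    (F : Type) [Field F] [IsAlgClosed F] [CharZero F] (H : WeilTheoryData.{0, 0, 0} C F)
    [IsWeil H] (s : ℕ) (A Z : 𝒱.Obj) (πA : A ⟶ A) (πZ : Z ⟶ Z),
      IsCase H K q s f πA πZ → IsFrobenius C (prodMap πA πZ) (q ^ s) →
        (∀ m : ℤ, 0 ≤ m → m ≤ 2 → PerfectAt C Z m) → UnramifiedFinite C (A.prod Z)

end Pool.Agent.U273.UR
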