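import Mathlib
import Pool.Agent.Y1.CT.Light
import Pool.Agent.U273.UR.Main
import Pool.Agent.U273.UR.TimesDefs

/-!
# Unramified cohomology of degree three of the products `A × Z`
-/

set_option autoImplicit false

open CategoryTheory AlgebraicGeometry

namespace Pool.Agent.U273.UR

open Polynomial Pool.Agent.H914 Pool.Agent.H914.VarClass Pool.Agent.H914.VarClass.Obj
  Pool.Agent.W492.BB Pool.Agent.W484.CK Pool.Agent.Y1.CT Pool.Agent.Y1.KN

theorem unramifiedTimes {I : Type} {K : I → Type} [∀ i, Field (K i)] {q : ℕ} (hq : 1 < q)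
    {f : I → ℤ[X]} (hR : NoRel f q (Independent K)) : UnramifiedTimes K q f := by
  intro k _ 𝒱 C _ F _ _ _ H _ s A Z πA πZ h hF hZ
  have hS := isStandard_bridge h.standard
  refine unramifiedFinite (H := H) hS ?_
  rw [← perfectAt_iff]
  refine ((perfectPairingTimes hq hR k 𝒱 C F H s A Z πA πZ h hF).2 2).2 ?_
  intro m _ hm
  rw [perfectAt_iff]
  exact perfectIn_le_two hS (fun l h0 h2 => (perfectAt_iff Z l).1 (hZ l h0 h2)) m hm

end Pool.Agent.U273.UR
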